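import Pool.Agent.FS83.Final2

/-!
MP_33bcaa_nt.  For all but few primes `p` the largest square dividing the Fibonacci number `F_p`
is small.  If `F_p = s k ^ 2` then `s > B p`, with at most `C B N ^ (3/4) log N` exceptions
`p ≤ N`, and `s` is prime or `s > B p ^ 2`, with at most `C B N ^ (4/5) (log N) ^ 2` exceptions,
uniformly in the integers `N ≥ 2`, `B ≥ 1`.
-/

set_option autoImplicit false

namespace Pool.Agent.Results.MP_33bcaa_nt.LargeSquarefreePart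

theorem result :
    (∃ C : ℝ, 0 < C ∧ ∀ N : ℕ, 2 ≤ N → ∀ B : ℕ, 1 ≤ B →
      ({p : ℕ | p ≤ N ∧ p.Prime ∧ ∃ s k : ℕ, Nat.fib p = s * k ^ 2 ∧ s ≤ B * p}.ncard : ℝ) ≤
        C * B * (N : ℝ) ^ (3 / 4 : ℝ) * Real.log N) ∧
    (∃ C : ℝ, 0 < C ∧ ∀ N : ℕ, 2 ≤ N → ∀ B : ℕ, 1 ≤ B →
      ({p : ℕ | p ≤ N ∧ p.Prime ∧
          ∃ s k : ℕ, Nat.fib p = s * k ^ 2 ∧ s ≤ B * p ^ 2 ∧ ¬ s.Prime}.ncard : ℝ) ≤
        C * B * (N : ℝ) ^ (4 / 5 : ℝ) * Real.log N ^ 2) := by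
  classical
  constructor
  · obtain ⟨C, hC, h⟩ := Pool.FS83.exc_bound
    refine ⟨C, hC, fun N hN B hB => ?_⟩
    refine le_trans (le_of_eq ?_) (h N hN B hB)
    have e : {p : ℕ | p ≤ N ∧ p.Prime ∧ ∃ s k : ℕ, Nat.fib p = s * k ^ 2 ∧ s ≤ B * p} =
        (Pool.FS83.Exc N B : Set ℕ) := by
      ext p
      unfold Pool.FS83.Exc
      rw [Finset.coe_filter]
      simp only [Set.mem_ofPred_eq, Finset.mem_range, Nat.lt_succ_iff]
    rw [e, Set.ncard_coe_finset]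
  · obtain ⟨C, hC, h⟩ := Pool.FS83.exc2_bound
    refine ⟨C, hC, fun N hN B hB => ?_⟩
    refine le_trans (le_of_eq ?_) (h N hN B hB)
    have e : {p : ℕ | p ≤ N ∧ p.Prime ∧
          ∃ s k : ℕ, Nat.fib p = s * k ^ 2 ∧ s ≤ B * p ^ 2 ∧ ¬ s.Prime} =
        (Pool.FS83.Exc2 N B : Set ℕ) := by
      ext p
      unfold Pool.FS83.Exc2
      rw [Finset.coe_filter]
      simp only [Set.mem_ofPred_eq, Finset.mem_range, Nat.lt_succ_iff]
    rw [e, Set.ncard_coe_finset]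

end Pool.Agent.Results.MP_33bcaa_nt.LargeSquarefreePart
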